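import Pool.Agent.Helper12_UNF.Stmts2

set_option autoImplicit false

/-!
# Module HLN (squad UNF): half lengths and the tree order
-/

namespace Unf.H63

open Art

variable {k : ℕ}

theorem ox_sq (i : Fin k) : ox i * ox i = 1 :=
  (Om k).toCoxeterSystem.simple_mul_simple_self i

theorem ox_inv (i : Fin k) : (ox i)⁻¹ = ox i := inv_eq_of_mul_eq_one_left (ox_sq i)

theorem wp_nil : wp ([] : List (Fin k)) = 1 := rfl

theorem wp_cons (i : Fin k) (l : List (Fin k)) : wp (i :: l) = ox i * wp l := by
  simp [wp]

theorem wp_append (l r : List (Fin k)) : wp (l ++ r) = wp l * wp r := by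
  simp [wp]

theorem wp_one (i : Fin k) : wp [i] = ox i := by simp [wp]

theorem wp_reverse (l : List (Fin k)) : wp l.reverse = (wp l)⁻¹ := by
  induction l with
  | nil => simp [wp]
  | cons a l ih => rw [List.reverse_cons, wp_append, wp_one, ih, wp_cons, mul_inv_rev, ox_inv]

/-- Every word can be reduced without increasing its length. -/
theorem red (l : List (Fin k)) : ∃ l' : List (Fin k), Rw l' ∧ wp l' = wp l ∧
    l'.length ≤ l.length := by
  induction l with
  | nil => exact ⟨[], List.IsChain.nil, rfl, le_rfl⟩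
  | cons a l ih =>
    obtain ⟨l', h1, h2, h3⟩ := ih
    rcases l' with _ | ⟨b, t⟩
    · refine ⟨[a], List.IsChain.singleton a, ?_, by simp⟩
      rw [wp_cons, wp_cons, h2]
    · by_cases hab : a = b
      · subst hab
        refine ⟨t, h1.tail, ?_, ?_⟩
        · rw [wp_cons, ← h2, wp_cons, ← mul_assoc, ox_sq, one_mul]
        · simp only [List.length_cons] at h3 ⊢
          omega
      · refine ⟨a :: b :: t, List.IsChain.cons_cons hab h1, ?_, ?_⟩
        · rw [wp_cons, h2, wp_cons]
        · simp only [List.length_cons] at h3 ⊢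
          omega

/-- The square of a reflection. -/
theorem conj_sq (g : O k) (i : Fin k) : (g * ox i * g⁻¹) * (g * ox i * g⁻¹) = 1 := by
  calc (g * ox i * g⁻¹) * (g * ox i * g⁻¹) = g * (ox i * ox i) * g⁻¹ := by group
    _ = 1 := by rw [ox_sq]; group

theorem hw_sq {A : O k} {w : List (Fin k)} {i : Fin k} (h : HW A w i) : A * A = 1 := by
  rw [h.2]
  exact conj_sq _ _

theorem hw_inv {A : O k} {w : List (Fin k)} {i : Fin k} (h : HW A w i) : A⁻¹ = A :=
  inv_eq_of_mul_eq_one_left (hw_sq h)

/-- `A w_B` for `w_B = w_A i_A v`. -/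
theorem hw_mul_ext {A : O k} {w : List (Fin k)} {i : Fin k} (h : HW A w i) (v : List (Fin k)) :
    A * wp (w ++ [i] ++ v) = wp (w ++ v) := by
  rw [wp_append, wp_append, wp_append, wp_one, h.2]
  calc wp w * ox i * (wp w)⁻¹ * (wp w * ox i * wp v) = wp w * (ox i * ox i) * wp v := by group
    _ = wp w * wp v := by rw [ox_sq, mul_one]

/-- `A w_B` for `w_A = p u`, `w_B = p v`. -/
theorem hw_mul_pre {A : O k} {p u : List (Fin k)} {i : Fin k} (h : HW A (p ++ u) i)
    (v : List (Fin k)) : A * wp (p ++ v) = wp (p ++ u ++ [i] ++ u.reverse ++ v) := by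
  rw [h.2]
  simp only [wp_append, wp_one, wp_reverse]
  group

/-- Conjugation. -/
theorem conj_eq {A B g : O k} {i : Fin k} (hA : A⁻¹ = A) (hB : B = g * ox i * g⁻¹) :
    A * B * A = (A * g) * ox i * (A * g)⁻¹ := by
  rw [hB]
  conv_lhs => rw [← hA]
  rw [mul_inv_rev]
  nth_rewrite 1 [hA]
  group

/-- Uniqueness of the word of a reflection. -/
theorem hw_unique (nfo : NfoStmt) {A : O k} {w w' : List (Fin k)} {i i' : Fin k}
    (h : HW A w i) (h' : HW A w' i') : w = w' ∧ i = i' := by
  have key : ∀ (w : List (Fin k)) (i : Fin k), HW A w i →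
      Rw (w ++ [i] ++ w.reverse) ∧ wp (w ++ [i] ++ w.reverse) = A := by
    rintro w i ⟨h1, h2⟩
    constructor
    · have h3 : Rw (i :: w.reverse) := by
        have h4 : (w ++ [i]).reverse = i :: w.reverse := by simp
        rw [← h4]
        unfold Rw at h1 ⊢
        rw [List.isChain_reverse]
        exact h1.imp (fun a b hab => hab.symm)
      unfold Rw at h1 h3 ⊢
      have h5 : List.IsChain (fun x y => x ≠ y) ([i] ++ w.reverse) := h3
      exact List.IsChain.append_overlap h1 h5 (by simp)
    · rw [wp_append, wp_append, wp_one, wp_reverse, h2]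
  obtain ⟨l, hl, hu⟩ := nfo k A
  have e1 := hu _ (key w i h)
  have e2 := hu _ (key w' i' h')
  have e3 : w ++ [i] ++ w.reverse = w' ++ [i'] ++ w'.reverse := e1.trans e2.symm
  have hlen : w.length = w'.length := by
    have := congrArg List.length e3
    simp only [List.length_append, List.length_reverse, List.length_singleton] at this
    omega
  have e4 := List.append_inj_left e3 (by simp [hlen])
  have e5 := List.append_inj e4 hlen
  exact ⟨e5.1, by simpa using e5.2⟩

/-- Every conjugate of a generator has a reduced form which is not longer. -/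
theorem hw_exists (w : List (Fin k)) (i : Fin k) :
    ∃ w' i', HW (wp w * ox i * (wp w)⁻¹) w' i' ∧ w'.length ≤ w.length := by
  obtain ⟨l, h1, h2, h3⟩ := red w
  rcases List.eq_nil_or_concat l with hl | ⟨l0, j, hl⟩
  · subst hl
    exact ⟨[], i, ⟨List.IsChain.singleton i, by rw [← h2]⟩, by simp⟩
  · rw [List.concat_eq_append] at hl
    subst hl
    by_cases hij : j = i
    · subst hij
      refine ⟨l0, j, ⟨h1, ?_⟩, ?_⟩
      · rw [← h2, wp_append, wp_one]
        group
      · simp only [List.length_append, List.length_singleton] at h3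
        omega
    · refine ⟨l0 ++ [j], i, ⟨?_, by rw [h2]⟩, h3⟩
      unfold Rw at h1 ⊢
      have h5 : List.IsChain (fun x y => x ≠ y) ([j] ++ [i]) :=
        List.IsChain.cons_cons hij (List.IsChain.singleton i)
      exact List.IsChain.append_overlap h1 h5 (by simp)

theorem hl_eq (nfo : NfoStmt) {A : O k} {w : List (Fin k)} {i : Fin k} (h : HW A w i) :
    hl A = w.length := by
  apply le_antisymm
  · exact Nat.sInf_le ⟨w, i, rfl, h.2⟩
  · refine le_csInf (s := {m | ∃ (w : List (Fin k)) (i : Fin k), w.length = m ∧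
      A = wp w * ox i * (wp w)⁻¹}) ⟨w.length, w, i, rfl, h.2⟩ ?_
    rintro m ⟨w2, i2, rfl, h2⟩
    obtain ⟨w3, i3, h3, h4⟩ := hw_exists w2 i2
    rw [← h2] at h3
    rw [(hw_unique nfo h h3).1]
    exact h4

theorem hl_le (w : List (Fin k)) (i : Fin k) : hl (wp w * ox i * (wp w)⁻¹) ≤ w.length :=
  Nat.sInf_le ⟨w, i, rfl, rfl⟩

/-- The longest common start of two words. -/
theorem lcp {α : Type} (w w' : List α) : ∃ p u v : List α, w = p ++ u ∧ w' = p ++ v ∧
    ∀ a b t t', u = a :: t → v = b :: t' → a ≠ b := by
  induction w generalizing w' with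
  | nil => exact ⟨[], [], w', rfl, rfl, fun a b t t' h => absurd h (by simp)⟩
  | cons a w ih =>
    rcases w' with _ | ⟨b, w'⟩
    · exact ⟨[], a :: w, [], rfl, rfl, fun a b t t' _ h => absurd h (by simp)⟩
    · by_cases hab : a = b
      · subst hab
        obtain ⟨p, u, v, h1, h2, h3⟩ := ih w'
        exact ⟨a :: p, u, v, by rw [h1]; rfl, by rw [h2]; rfl, h3⟩
      · refine ⟨[], a :: w, b :: w', rfl, rfl, ?_⟩
        intro a' b' t t' h1 h2
        cases h1
        cases h2
        exact hab

/-- Reduced words: joining at a nonempty overlap. -/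
theorem rw_join {l m r : List (Fin k)} (h1 : Rw (l ++ m)) (h2 : Rw (m ++ r)) (h : m ≠ []) :
    Rw (l ++ m ++ r) := List.IsChain.append_overlap h1 h2 h

theorem rw_left {l r : List (Fin k)} (h : Rw (l ++ r)) : Rw l :=
  (List.isChain_append.1 h).1

theorem rw_right {l r : List (Fin k)} (h : Rw (l ++ r)) : Rw r :=
  (List.isChain_append.1 h).2.1

theorem rw_rev {l : List (Fin k)} (h : Rw l) : Rw l.reverse := by
  unfold Rw at h ⊢
  rw [List.isChain_reverse]
  exact h.imp (fun a b hab => hab.symm)

/-- The junction of two reflections. -/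
theorem junction {A B : O k} {p u v : List (Fin k)} {i i' : Fin k} (hA : HW A (p ++ u) i)
    (hB : HW B (p ++ v) i') (hd : ∀ a b t t', u = a :: t → v = b :: t' → a ≠ b)
    (h0 : A ≠ B) (h1 : ¬ TL A B) (h2 : ∀ t, u = i' :: t → v ≠ []) :
    Rw ([i] ++ u.reverse ++ (v ++ [i'])) := by
  have r1 : Rw ([i] ++ u.reverse) := by
    have h3 : Rw (u ++ [i]) := by
      have := hA.1
      rw [List.append_assoc] at this
      exact rw_right this
    have h4 := rw_rev h3
    simpa using h4
  have r2 : Rw (v ++ [i']) := by
    have := hB.1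
    rw [List.append_assoc] at this
    exact rw_right this
  unfold Rw at r1 r2 ⊢
  rw [List.isChain_append]
  refine ⟨r1, r2, ?_⟩
  intro x hx y hy
  rcases u with _ | ⟨a, t⟩
  · have hx' : x = i := by simpa using hx.symm
    subst hx'
    rcases v with _ | ⟨b, t'⟩
    · have hy' : y = i' := by simpa using hy.symm
      subst hy'
      intro hxy
      subst hxy
      exact h0 (hA.2.trans hB.2.symm)
    · have hy' : y = b := by simpa using hy.symm
      subst hy'
      intro hxy
      subst hxy
      apply h1
      refine ⟨_, _, _, _, hA, hB, ?_⟩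
      simp
  · have hx' : x = a := by
      have h3 : ([i] ++ (a :: t).reverse).getLast? = some a := by
        rw [List.reverse_cons, ← List.append_assoc, List.getLast?_concat]
      rw [h3] at hx
      exact (Option.some_injective _ hx).symm
    subst hx'
    rcases v with _ | ⟨b, t'⟩
    · have hy' : y = i' := by simpa using hy.symm
      subst hy'
      intro hxy
      subst hxy
      exact h2 t rfl rfl
    · have hy' : y = b := by simpa using hy.symm
      subst hy'
      exact hd x y t t' rfl rfl

/-- HLN. -/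
theorem hln (nfo : NfoStmt) : HlnStmt := by
  intro k
  refine ⟨?_, ?_, ?_, ?_, ?_, ?_, ?_⟩
  · intro A w i w' i' h h'
    exact hw_unique nfo h h'
  · intro A w i h
    exact hl_eq nfo h
  · intro w i
    obtain ⟨w', i', h, -⟩ := hw_exists w i
    exact ⟨⟨w', i', h⟩, hl_le w i⟩
  · rintro A B ⟨w, i, w', i', hA, hB, ⟨v, hv⟩⟩
    constructor
    · rw [hl_eq nfo hB, conj_eq (hw_inv hA) hB.2, ← hv, hw_mul_ext hA]
      refine lt_of_le_of_lt (hl_le _ _) ?_
      simp only [List.length_append, List.length_singleton]
      omega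
    · rintro ⟨w2, i2, w2', i2', hB2, hA2, ⟨v2, hv2⟩⟩
      obtain ⟨e1, e2⟩ := hw_unique nfo hB hB2
      obtain ⟨e3, e4⟩ := hw_unique nfo hA hA2
      have l1 := congrArg List.length hv
      have l2 := congrArg List.length hv2
      rw [← e1, ← e3] at l2
      simp only [List.length_append, List.length_singleton] at l1 l2
      omega
  · rintro A B ⟨w, i, hA⟩ ⟨w', i', hB⟩ hne hTL
    obtain ⟨p, u, v, hw, hw', hd⟩ := lcp w w'
    subst hw
    subst hw'
    rw [hl_eq nfo hB, conj_eq (hw_inv hA) hB.2, hw_mul_pre hA]
    by_cases h2 : ∀ t, u = i' :: t → v ≠ []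
    · have hj := junction hA hB hd hne hTL h2
      have hR : Rw (p ++ u ++ [i] ++ u.reverse ++ v ++ [i']) := by
        have := rw_join (l := p ++ u) (m := [i]) (r := u.reverse ++ (v ++ [i'])) hA.1
          (by rw [← List.append_assoc]; exact hj) (by simp)
        simpa [List.append_assoc] using this
      have hHW : HW (wp (p ++ u ++ [i] ++ u.reverse ++ v) * ox i' *
          (wp (p ++ u ++ [i] ++ u.reverse ++ v))⁻¹) (p ++ u ++ [i] ++ u.reverse ++ v) i' :=
        ⟨hR, rfl⟩
      rw [hl_eq nfo hHW]
      simp only [List.length_append, List.length_singleton, List.length_reverse]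
      omega
    · push_neg at h2
      obtain ⟨t, hu, hv⟩ := h2
      subst hu
      subst hv
      have e1 : wp (p ++ (i' :: t) ++ [i] ++ (i' :: t).reverse ++ []) * ox i' *
          (wp (p ++ (i' :: t) ++ [i] ++ (i' :: t).reverse ++ []))⁻¹ =
          wp (p ++ (i' :: t) ++ [i] ++ t.reverse) * ox i' *
          (wp (p ++ (i' :: t) ++ [i] ++ t.reverse))⁻¹ := by
        have e2 : wp (p ++ (i' :: t) ++ [i] ++ (i' :: t).reverse ++ []) =
            wp (p ++ (i' :: t) ++ [i] ++ t.reverse) * ox i' := by
          rw [List.append_nil, List.reverse_cons, ← List.append_assoc, wp_append _ [i'], wp_one]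
        rw [e2]
        group
      rw [e1]
      have hR : Rw (p ++ (i' :: t) ++ [i] ++ t.reverse ++ [i']) := by
        have h3 : Rw (p ++ (i' :: t) ++ [i]) := hA.1
        have h4 : Rw ([i] ++ (t.reverse ++ [i'])) := by
          have h5 : Rw ((i' :: t) ++ [i]) := by
            rw [List.append_assoc] at h3
            exact rw_right h3
          have h6 := rw_rev h5
          simpa using h6
        have := rw_join h3 h4 (by simp)
        simpa [List.append_assoc] using this
      have hHW : HW (wp (p ++ (i' :: t) ++ [i] ++ t.reverse) * ox i' *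
          (wp (p ++ (i' :: t) ++ [i] ++ t.reverse))⁻¹) (p ++ (i' :: t) ++ [i] ++ t.reverse) i' :=
        ⟨hR, rfl⟩
      rw [hl_eq nfo hHW]
      simp only [List.length_append, List.length_singleton, List.length_reverse,
        List.length_cons, List.length_nil]
      omega
  · rintro A B C ⟨w, i, w', i', hA, hB, ⟨u, hu⟩⟩ ⟨w2, i2, w'', i'', hB2, hC, ⟨v, hv⟩⟩
    obtain ⟨e1, e2⟩ := hw_unique nfo hB2 hB
    subst e1
    subst e2
    subst hu
    subst hv
    constructor
    · refine ⟨w, i, _, i'', hA, hC, ?_⟩
      rw [List.append_assoc, List.append_assoc (w ++ [i])]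
      exact List.prefix_append _ _
    · rw [hl_eq nfo hC, conj_eq (hw_inv hB2) hC.2, conj_eq (hw_inv hA) rfl, hw_mul_ext hB2,
        List.append_assoc (w ++ [i]), hw_mul_ext hA]
      refine lt_of_le_of_lt (hl_le _ _) ?_
      simp only [List.length_append, List.length_singleton]
      omega
  · rintro A B C ⟨w, i, w', i', hA, hB, hp⟩ ⟨w2, i2, w2', i2', hC, hB2, hp2⟩ hAC
    obtain ⟨e1, e2⟩ := hw_unique nfo hB2 hB
    subst e1
    subst e2
    rcases lt_trichotomy (w.length) (w2.length) with h | h | h
    · left
      refine ⟨w, i, w2, i2, hA, hC, ?_⟩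
      apply List.prefix_of_prefix_length_le hp ((List.prefix_append w2 [i2]).trans hp2)
      simp only [List.length_append, List.length_singleton]
      omega
    · exfalso
      apply hAC
      have h3 : w ++ [i] = w2 ++ [i2] := by
        apply List.IsPrefix.eq_of_length
        · exact List.prefix_of_prefix_length_le hp hp2 (by simp [h])
        · simp [h]
      have h4 := List.append_inj h3 h
      have h5 : i = i2 := by simpa using h4.2
      rw [hA.2, hC.2, h4.1, h5]
    · right
      refine ⟨w2, i2, w, i, hC, hA, ?_⟩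
      apply List.prefix_of_prefix_length_le hp2 ((List.prefix_append w [i]).trans hp)
      simp only [List.length_append, List.length_singleton]
      omega

end Unf.H63
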