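import Pool.Agent.Helper63_UNF.Hln

set_option autoImplicit false

/-!
# Module IRR (squad UNF): irreducible lists of reflections
-/

namespace Unf.H63

open Art

variable {k : ℕ}

/-- The word of the product after the first reflection. -/
theorem irr_tail (l : List (O k)) : ∀ (A : O k) (w : List (Fin k)) (i : Fin k), HW A w i →
    Irr (A :: l) → ∃ T : List (Fin k), Rw (i :: T) ∧ wp T = (wp w)⁻¹ * l.prod ∧
      ∀ c t, w = c :: t → c ∈ T := by
  induction l with
  | nil =>
    intro A w i hA _
    refine ⟨w.reverse, ?_, ?_, ?_⟩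
    · have := rw_rev hA.1
      simpa using this
    · rw [wp_reverse, List.prod_nil, mul_one]
    · intro c t h
      rw [h]
      simp
  | cons B l ih =>
    intro A w i hA hI
    obtain ⟨hR, hC⟩ := hI
    have hC' := List.isChain_cons_cons.1 hC
    obtain ⟨⟨hne, hAB, hBA⟩, hC2⟩ := hC'
    obtain ⟨w', i', hB⟩ := hR B (by simp)
    obtain ⟨T', hT1, hT2, hT3⟩ := ih B w' i' hB ⟨fun X hX => hR X (List.mem_cons_of_mem _ hX), hC2⟩
    obtain ⟨p, u, v, hw, hw', hd⟩ := lcp w w'
    subst hw
    subst hw'
    have h2 : ∀ t, u = i' :: t → v ≠ [] := by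
      intro t hu hv
      subst hu
      subst hv
      apply hBA
      refine ⟨_, _, _, _, hB, hA, ?_⟩
      simp
    have hj := junction hA hB hd hne hAB h2
    refine ⟨u.reverse ++ v ++ (i' :: T'), ?_, ?_, ?_⟩
    · have h3 : Rw (([i] ++ u.reverse ++ v) ++ [i']) := by
        simpa [List.append_assoc] using hj
      have h4 := rw_join (l := [i] ++ u.reverse ++ v) (m := [i']) (r := T') h3 hT1 (by simp)
      simpa [List.append_assoc] using h4
    · rw [wp_append, wp_append, wp_cons, hT2, wp_reverse, List.prod_cons, hB.2, wp_append,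
        wp_append]
      group
    · intro c t hw
      rcases p with _ | ⟨c', p'⟩
      · have hu : u = c :: t := by simpa using hw
        rw [hu]
        simp
      · have hc : c' = c := by
          have : c' :: (p' ++ u) = c :: t := by simpa using hw
          exact (List.cons.inj this).1
        subst hc
        have := hT3 c' (p' ++ v) rfl
        simp [this]

/-- IRR. -/
theorem irr (nfo : NfoStmt) : IrrStmt := by
  intro k l p q hI hR hP hN hD hlen
  clear hlen
  induction p generalizing l with
  | nil => exact ⟨l, rfl⟩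
  | cons c p ih =>
    rcases l with _ | ⟨A, l⟩
    · exfalso
      obtain ⟨x, hx, hu⟩ := nfo k 1
      have e1 := hu (c :: p ++ q) ⟨hR, hP⟩
      have e2 := hu [] ⟨List.IsChain.nil, rfl⟩
      rw [← e2] at e1
      simp at e1
    · obtain ⟨w, i, hA⟩ := hI.1 A (by simp)
      obtain ⟨T, hT1, hT2, hT3⟩ := irr_tail l A w i hA hI
      have hW : Rw (w ++ [i] ++ T) := rw_join hA.1 hT1 (by simp)
      have hWp : wp (w ++ [i] ++ T) = (A :: l).prod := by
        rw [wp_append, wp_append, wp_one, hT2, List.prod_cons, hA.2]
        group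
      obtain ⟨x, hx, hu⟩ := nfo k (A :: l).prod
      have e1 := hu _ ⟨hW, hWp⟩
      have e2 := hu (c :: p ++ q) ⟨hR, hP⟩
      have e3 : w ++ [i] ++ T = c :: (p ++ q) := e1.trans e2.symm
      have hcp : c ∉ p := (List.nodup_cons.1 hN).1
      have hcq : c ∉ q := hD c (by simp)
      rcases w with _ | ⟨c', t⟩
      · have e4 : i :: T = c :: (p ++ q) := by simpa using e3
        obtain ⟨hi, hT⟩ := List.cons.inj e4
        subst hi
        have hAo : A = ox i := by
          rw [hA.2, wp_nil]
          group
        have hI' : Irr l := ⟨fun X hX => hI.1 X (List.mem_cons_of_mem _ hX), hI.2.tail⟩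
        have hP' : wp (p ++ q) = l.prod := by
          rw [← hT, hT2, wp_nil, inv_one, one_mul]
        obtain ⟨l', hl'⟩ := ih l hI' (rw_right (l := [i]) hR) hP' (List.nodup_cons.1 hN).2
          (fun a ha => hD a (List.mem_cons_of_mem _ ha))
        exact ⟨l', by rw [hl', hAo]; rfl⟩
      · exfalso
        have e4 : c' :: (t ++ [i] ++ T) = c :: (p ++ q) := by simpa using e3
        obtain ⟨hc, hT⟩ := List.cons.inj e4
        subst hc
        have h1 : c' ∈ T := hT3 c' t rfl
        have h2 : c' ∈ p ++ q := by
          rw [← hT]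
          simp [h1]
        rcases List.mem_append.1 h2 with h | h
        · exact hcp h
        · exact hcq h

end Unf.H63
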