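import Pool.Agent.Helper12_UNF.Stmts

set_option autoImplicit false

/-!
# Module COC (squad UNF): the parabolic projection cocycle
-/

namespace Unf.H63

open Art

/-- The semidirect product of the functions `W → A` and `W`. -/
@[ext]
structure K (W A : Type) where
  f : W → A
  u : W

namespace K

variable {W A : Type} [Group W] [Group A]

instance : Mul (K W A) := ⟨fun a b => ⟨fun w => a.f w * b.f (w * a.u), a.u * b.u⟩⟩

instance : One (K W A) := ⟨⟨fun _ => 1, 1⟩⟩

instance : Inv (K W A) := ⟨fun a => ⟨fun w => (a.f (w * a.u⁻¹))⁻¹, a.u⁻¹⟩⟩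

theorem mul_f (a b : K W A) (w : W) : (a * b).f w = a.f w * b.f (w * a.u) := rfl

theorem mul_u (a b : K W A) : (a * b).u = a.u * b.u := rfl

theorem one_f (w : W) : (1 : K W A).f w = 1 := rfl

theorem one_u : (1 : K W A).u = 1 := rfl

theorem inv_f (a : K W A) (w : W) : (a⁻¹).f w = (a.f (w * a.u⁻¹))⁻¹ := rfl

theorem inv_u (a : K W A) : (a⁻¹).u = a.u⁻¹ := rfl

instance : Group (K W A) where
  mul_assoc a b c := by
    ext w
    · simp only [mul_f, mul_u, mul_assoc]
    · simp only [mul_u, mul_assoc]
  one_mul a := by
    ext w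
    · simp only [mul_f, one_f, one_u, one_mul, mul_one]
    · simp only [mul_u, one_u, one_mul]
  mul_one a := by
    ext w
    · simp only [mul_f, one_f, mul_one]
    · simp only [mul_u, one_u, mul_one]
  inv_mul_cancel a := by
    ext w
    · simp only [mul_f, inv_f, inv_u, one_f, inv_mul_cancel]
    · simp only [mul_u, inv_u, one_u, inv_mul_cancel]

/-- The projection. -/
def pr : K W A →* W where
  toFun a := a.u
  map_one' := rfl
  map_mul' _ _ := rfl

theorem alt_u (n : ℕ) (a b : K W A) : (alt n a b).u = alt n a.u b.u := map_alt pr n a b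

theorem alt_f (n : ℕ) (a b : K W A) (w : W) : (alt n a b).f w =
    ((List.range n).map (fun k => (if Even k then a else b).f (w * alt k a.u b.u))).prod := by
  induction n with
  | zero => simp [alt, one_f]
  | succ n ih =>
    have h1 : alt (n + 1) a b = alt n a b * (if Even n then a else b) := by
      unfold alt
      rw [List.range_succ, List.map_append, List.prod_append, List.map_singleton,
        List.prod_singleton]
    rw [h1, mul_f, ih, alt_u, List.range_succ, List.map_append, List.prod_append,
      List.map_singleton, List.prod_singleton]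

end K

/-- COC. -/
theorem coc (prj : PrjStmt) : CocStmt := by
  intro S _ M D q hq
  obtain ⟨π⟩ := prj M D
  let e : M.Group → S → Gp (res M D) := fun w s => (π.c w s).elim 1 (gen (res M D))
  let g : S → K M.Group (Gp (res M D)) := fun s => ⟨fun w => e w s, M.simple s⟩
  have hgu : ∀ s, (g s).u = M.simple s := fun s => rfl
  have hgf : ∀ s w, (g s).f w = e w s := fun s w => rfl
  have hrel : ∀ s t, M.M s t ≠ 0 →
      alt (M.M s t) (M.simple s) (M.simple t) = alt (M.M s t) (M.simple t) (M.simple s) := by
    intro s t h
    have h1 := congrArg q (relHolds M s t h)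
    rwa [map_alt, map_alt, hq, hq] at h1
  have hif : ∀ (P : Prop) [Decidable P] (s t : S) (w : M.Group),
      (if P then g s else g t).f w = e w (if P then s else t) := by
    intro P _ s t w
    split_ifs <;> rfl
  obtain ⟨θ, hθ⟩ := lift M g (by
    intro s t h
    by_cases hst : s = t
    · rw [hst]
    ext w
    · rw [K.alt_f, K.alt_f]
      simp only [hgu, hif]
      exact π.c_braid w s t hst h
    · rw [K.alt_u, K.alt_u, hgu, hgu, hrel s t h])
  have hθu : ∀ x, (θ x).u = q x := by
    have h1 : K.pr.comp θ = q := by
      apply ext M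
      intro s
      show (θ (gen M s)).u = q (gen M s)
      rw [hθ, hq]
    intro x
    rw [← h1]
    rfl
  have hco : ∀ x y w, (θ (x * y)).f w = (θ x).f w * (θ y).f (w * q x) := by
    intro x y w
    rw [map_mul, K.mul_f, hθu]
  have hgen : ∀ s w, (θ (gen M s)).f w = e w s := by
    intro s w
    rw [hθ]
  refine ⟨fun x w => (θ x).f w, π.p, hco, ?_, ?_, ?_⟩
  · intro s w hw
    show (θ (gen M s.1)).f w = gen (res M D) s
    rw [hgen]
    show (π.c w s.1).elim 1 (gen (res M D)) = _
    rw [π.c_in w s hw]
    rfl
  · intro U s hs w hw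
    show (θ (gen M s)).f w = 1 ∨ ∃ t : D, t.1 ∈ U ∧ (θ (gen M s)).f w = gen (res M D) t
    rw [hgen]
    show (π.c w s).elim 1 (gen (res M D)) = 1 ∨ ∃ t : D, t.1 ∈ U ∧
      (π.c w s).elim 1 (gen (res M D)) = gen (res M D) t
    rcases h : π.c w s with _ | t
    · exact Or.inl rfl
    · exact Or.inr ⟨t, π.c_mem U w s t hw hs h, rfl⟩
  · intro Φ hΦ
    have key : ∀ x ∈ Subgroup.closure (Set.range (gen M)), ∀ w,
        q (Φ ((θ x).f w)) = (π.p w)⁻¹ * π.p (w * q x) := by
      intro x hx
      induction hx using Subgroup.closure_induction with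
      | mem x hx =>
        obtain ⟨s, rfl⟩ := hx
        intro w
        rw [hgen, hq]
        show q (Φ ((π.c w s).elim 1 (gen (res M D)))) = _
        rcases h : π.c w s with _ | t
        · rw [π.p_none w s h]
          simp
        · rw [π.p_some w s t h]
          show q (Φ (gen (res M D) t)) = _
          rw [hΦ, hq]
          group
      | one =>
        intro w
        simp [K.one_f]
      | mul x y _ _ ihx ihy =>
        intro w
        rw [hco, map_mul, map_mul, ihx, ihy, map_mul, mul_assoc w]
        group
      | inv x _ ih =>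
        intro w
        have h1 : (θ x⁻¹).f w = ((θ x).f (w * (q x)⁻¹))⁻¹ := by
          rw [map_inv, K.inv_f, hθu]
        rw [h1, map_inv, map_inv, ih, map_inv, inv_mul_cancel_right]
        group
    intro x w
    exact key x (by rw [closure_gen]; trivial) w

end Unf.H63
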