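import Pool.Agent.Helper12_UNF.Stmts

set_option autoImplicit false

/-!
# Module REDA (squad UNF): residual finiteness of all Artin groups implies that double cosets of
maximal parabolic subgroups are closed
-/

namespace Unf.H63

open Art

/-- Add one generator, commuting exactly with the generators in `U`. -/
noncomputable def ext1 {S : Type} (M : CoxeterMatrix S) (U : Set S) : CoxeterMatrix (Option S) where
  M := Matrix.of fun a b => by
    classical
    exact match a, b with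
    | none, none => 1
    | none, some j => if j ∈ U then 2 else 0
    | some i, none => if i ∈ U then 2 else 0
    | some i, some j => M.M i j
  isSymm := by
    ext a b
    rcases a with _ | a <;> rcases b with _ | b
    · rfl
    · rfl
    · rfl
    · exact M.symmetric b a
  diagonal a := by
    rcases a with _ | a
    · rfl
    · exact M.diagonal a
  off_diagonal a b h := by
    classical
    rcases a with _ | a <;> rcases b with _ | b
    · exact absurd rfl h
    · show (if b ∈ U then 2 else 0) ≠ 1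
      split_ifs <;> norm_num
    · show (if a ∈ U then 2 else 0) ≠ 1
      split_ifs <;> norm_num
    · exact M.off_diagonal a b (fun h' => h (by rw [h']))

theorem ext1_ns {S : Type} (M : CoxeterMatrix S) (U : Set S) (j : S) (h : j ∈ U) :
    (ext1 M U).M none (some j) = 2 := by
  classical
  show (if j ∈ U then 2 else 0) = 2
  rw [if_pos h]

theorem ext1_ns0 {S : Type} (M : CoxeterMatrix S) (U : Set S) (j : S) (h : j ∉ U) :
    (ext1 M U).M none (some j) = 0 := by
  classical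
  show (if j ∈ U then 2 else 0) = 0
  rw [if_neg h]

theorem ext1_sn {S : Type} (M : CoxeterMatrix S) (U : Set S) (j : S) (h : j ∈ U) :
    (ext1 M U).M (some j) none = 2 := by
  classical
  show (if j ∈ U then 2 else 0) = 2
  rw [if_pos h]

theorem ext1_sn0 {S : Type} (M : CoxeterMatrix S) (U : Set S) (j : S) (h : j ∉ U) :
    (ext1 M U).M (some j) none = 0 := by
  classical
  show (if j ∈ U then 2 else 0) = 0
  rw [if_neg h]

theorem ext1_ss {S : Type} (M : CoxeterMatrix S) (U : Set S) (i j : S) :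
    (ext1 M U).M (some i) (some j) = M.M i j := rfl

/-- The inclusion. -/
theorem incl {S : Type} (M : CoxeterMatrix S) (U : Set S) :
    ∃ ι : Gp M →* Gp (ext1 M U), ∀ s, ι (gen M s) = gen (ext1 M U) (some s) :=
  lift M (fun s => gen (ext1 M U) (some s)) (fun s t h => relHolds (ext1 M U) (some s) (some t) h)

/-- The new generator commutes with the generators in `U`. -/
theorem comm {S : Type} (M : CoxeterMatrix S) (U : Set S) (j : S) (h : j ∈ U) :
    Commute (gen (ext1 M U) none) (gen (ext1 M U) (some j)) := by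
  have h1 := relHolds (ext1 M U) none (some j) (by rw [ext1_ns M U j h]; norm_num)
  rw [ext1_ns M U j h, alt_two, alt_two] at h1
  exact h1

/-- Universal property. -/
theorem lift1 {S : Type} (M : CoxeterMatrix S) (U : Set S) {G : Type} [Group G] (φ : Gp M →* G)
    (g : G) (hg : ∀ j ∈ U, Commute g (φ (gen M j))) :
    ∃ Φ : Gp (ext1 M U) →* G, Φ (gen _ none) = g ∧ ∀ s, Φ (gen _ (some s)) = φ (gen M s) := by
  obtain ⟨Φ, hΦ⟩ := lift (ext1 M U) (fun a => a.elim g (fun s => φ (gen M s))) (by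
    intro a b hab
    rcases a with _ | a <;> rcases b with _ | b
    · rfl
    · by_cases h : b ∈ U
      · rw [ext1_ns M U b h, alt_two, alt_two]
        exact hg b h
      · exact absurd (ext1_ns0 M U b h) hab
    · by_cases h : a ∈ U
      · rw [ext1_sn M U a h, alt_two, alt_two]
        exact (hg a h).symm
      · exact absurd (ext1_sn0 M U a h) hab
    · rw [ext1_ss] at hab ⊢
      show alt (M.M a b) (φ (gen M a)) (φ (gen M b)) = alt (M.M a b) (φ (gen M b)) (φ (gen M a))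
      rw [← map_alt, ← map_alt, relHolds M a b hab])
  exact ⟨Φ, hΦ none, fun s => hΦ (some s)⟩

/-- Commuting with all the generators implies commuting with the subgroup. -/
theorem comm_P {S : Type} (M : CoxeterMatrix S) (D : Set S) {G : Type} [Group G] (φ : Gp M →* G)
    (g : G) (hg : ∀ j ∈ D, Commute g (φ (gen M j))) (u : Gp M) (hu : u ∈ P M D) :
    Commute g (φ u) := by
  have h1 : P M D ≤ (Subgroup.centralizer {g}).comap φ := by
    unfold P
    rw [Subgroup.closure_le]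
    rintro _ ⟨j, hj, rfl⟩
    show φ (gen M j) ∈ Subgroup.centralizer {g}
    rw [Subgroup.mem_centralizer_iff]
    intro h hh
    rw [Set.mem_singleton_iff.1 hh]
    exact hg j hj
  have h2 := h1 hu
  rw [Subgroup.mem_comap, Subgroup.mem_centralizer_iff] at h2
  exact h2 g rfl

section Act

variable {A : Type} [Group A] {Ω : Type} [MulAction A Ω]

/-- The action on the product. -/
def act : A →* Equiv.Perm (Ω × Fin 3) where
  toFun a := Equiv.prodCongr (MulAction.toPerm a) (Equiv.refl _)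
  map_one' := by
    ext x <;> simp
  map_mul' a b := by
    ext x <;> simp [mul_smul]

theorem act_apply (a : A) (w : Ω) (k : Fin 3) : act a (w, k) = (a • w, k) := rfl

open Classical in
/-- A permutation of the fibres over `F`. -/
noncomputable def pp (F : Ω → Prop) (σ : Equiv.Perm (Fin 3)) : Equiv.Perm (Ω × Fin 3) :=
  Equiv.prodShear (Equiv.refl Ω) (fun w => if F w then σ else 1)

theorem pp_pos (F : Ω → Prop) (σ : Equiv.Perm (Fin 3)) (w : Ω) (k : Fin 3) (h : F w) :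
    pp F σ (w, k) = (w, σ k) := by
  classical
  have h1 : (if F w then σ else 1) = σ := if_pos h
  exact congrArg (fun τ : Equiv.Perm (Fin 3) => (w, τ k)) h1

theorem pp_neg (F : Ω → Prop) (σ : Equiv.Perm (Fin 3)) (w : Ω) (k : Fin 3) (h : ¬ F w) :
    pp F σ (w, k) = (w, k) := by
  classical
  have h1 : (if F w then σ else 1) = (1 : Equiv.Perm (Fin 3)) := if_neg h
  exact congrArg (fun τ : Equiv.Perm (Fin 3) => (w, τ k)) h1

theorem pp_act (F : Ω → Prop) (σ : Equiv.Perm (Fin 3)) (a : A) (ha : ∀ w, F (a • w) ↔ F w) :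
    Commute (pp F σ) (act (Ω := Ω) a) := by
  show pp F σ * act a = act a * pp F σ
  ext1 ⟨w, k⟩
  rw [Equiv.Perm.mul_apply, Equiv.Perm.mul_apply, act_apply]
  by_cases h : F w
  · rw [pp_pos F σ _ k ((ha w).2 h), pp_pos F σ w k h, act_apply]
  · rw [pp_neg F σ _ k (fun h' => h ((ha w).1 h')), pp_neg F σ w k h, act_apply]

theorem pp_pp (F F' : Ω → Prop) (σ σ' : Equiv.Perm (Fin 3)) (h : ∀ w, ¬ (F w ∧ F' w)) :
    Commute (pp F σ) (pp (Ω := Ω) F' σ') := by
  show pp F σ * pp F' σ' = pp F' σ' * pp F σ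
  ext1 ⟨w, k⟩
  rw [Equiv.Perm.mul_apply, Equiv.Perm.mul_apply]
  by_cases h1 : F w
  · have h2 : ¬ F' w := fun h2 => h w ⟨h1, h2⟩
    rw [pp_neg F' σ' w k h2, pp_pos F σ w k h1, pp_neg F' σ' w _ h2]
  · rw [pp_neg F σ w k h1]
    by_cases h2 : F' w
    · rw [pp_pos F' σ' w k h2, pp_neg F σ w _ h1]
    · rw [pp_neg F' σ' w k h2, pp_neg F σ w _ h1]

end Act

/-- Disjoint cosets. -/
def Dis {A : Type} [Group A] (X Y : Subgroup A) (w : (A ⧸ X) × (A ⧸ Y)) : Prop :=
  ¬ ∃ a : A, (a : A ⧸ X) = w.1 ∧ (a : A ⧸ Y) = w.2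

theorem dis_smul {A : Type} [Group A] (X Y : Subgroup A) (a : A) (w : (A ⧸ X) × (A ⧸ Y)) :
    Dis X Y (a • w) ↔ Dis X Y w := by
  have key : ∀ (a : A) (w : (A ⧸ X) × (A ⧸ Y)), Dis X Y w → Dis X Y (a • w) := by
    rintro a w h ⟨b, hb1, hb2⟩
    refine h ⟨a⁻¹ * b, ?_, ?_⟩
    · have h1 : ((a⁻¹ * b : A) : A ⧸ X) = a⁻¹ • (b : A ⧸ X) := rfl
      rw [h1, hb1]
      show a⁻¹ • a • w.1 = w.1
      rw [inv_smul_smul]
    · have h1 : ((a⁻¹ * b : A) : A ⧸ Y) = a⁻¹ • (b : A ⧸ Y) := rfl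
      rw [h1, hb2]
      show a⁻¹ • a • w.2 = w.2
      rw [inv_smul_smul]
  refine ⟨fun h => ?_, key a w⟩
  have h1 := key a⁻¹ _ h
  rwa [inv_smul_smul] at h1

/-- REDA. -/
theorem reda : RedaStmt := by
  intro hRF S _ M x y z hz
  classical
  set Px := P M {z | z ≠ x} with hPx
  set Py := P M {z | z ≠ y} with hPy
  -- the matrices
  set M1 := ext1 M {z | z ≠ x} with hM1
  set U2 : Set (Option S) := {a | a ≠ some y} with hU2
  set M2 := ext1 M1 U2 with hM2
  obtain ⟨ι1, hι1⟩ := incl M {z | z ≠ x}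
  obtain ⟨ι2, hι2⟩ := incl M1 U2
  let ι : Gp M →* Gp M2 := ι2.comp ι1
  have hι : ∀ s, ι (gen M s) = gen M2 (some (some s)) := by
    intro s
    show ι2 (ι1 (gen M s)) = _
    rw [hι1, hι2]
  let p : Gp M2 := ι2 (gen M1 none)
  let q : Gp M2 := gen M2 none
  have hpq : Commute q p := by
    show Commute q (ι2 (gen M1 none))
    rw [hι2]
    exact comm M1 U2 none (by
      show (none : Option S) ≠ some y
      intro h
      cases h)
  have hp : ∀ u ∈ Px, Commute p (ι u) := by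
    apply comm_P M {z | z ≠ x} ι p
    intro j hj
    show Commute (ι2 (gen M1 none)) (ι2 (ι1 (gen M j)))
    rw [hι1]
    exact (comm M {z | z ≠ x} j hj).map ι2
  have hq : ∀ u ∈ Py, Commute q (ι u) := by
    apply comm_P M {z | z ≠ y} ι q
    intro j hj
    rw [hι]
    exact comm M1 U2 (some j) (by
      show some j ≠ some y
      exact fun h => hj (Option.some_injective _ h))
  -- the homomorphism to permutations
  let Ω := (Gp M ⧸ Px) × (Gp M ⧸ Py)
  let φ : Gp M →* Equiv.Perm (Ω × Fin 3) := act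
  let Fp : Ω → Prop := fun w => w.1 = ((1 : Gp M) : Gp M ⧸ Px) ∧ Dis Px Py w
  let Fq : Ω → Prop := fun w => w.2 = ((1 : Gp M) : Gp M ⧸ Py) ∧ Dis Px Py w
  let p' : Equiv.Perm (Ω × Fin 3) := pp Fp (Equiv.swap 0 1)
  let q' : Equiv.Perm (Ω × Fin 3) := pp Fq (Equiv.swap 1 2)
  have fixx : ∀ j : S, j ≠ x → ∀ w : Ω, Fp (gen M j • w) ↔ Fp w := by
    intro j hj w
    have hmem : gen M j ∈ Px := Subgroup.subset_closure ⟨j, hj, rfl⟩
    have h1 : gen M j • ((1 : Gp M) : Gp M ⧸ Px) = ((1 : Gp M) : Gp M ⧸ Px) := by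
      show ((gen M j * 1 : Gp M) : Gp M ⧸ Px) = ((1 : Gp M) : Gp M ⧸ Px)
      rw [mul_one, QuotientGroup.eq]
      simpa using hmem
    show (gen M j • w.1 = _ ∧ Dis Px Py (gen M j • w)) ↔ (w.1 = _ ∧ Dis Px Py w)
    rw [dis_smul]
    refine and_congr_left (fun _ => ⟨fun h => ?_, fun h => by rw [h, h1]⟩)
    have h2 : gen M j • w.1 = gen M j • ((1 : Gp M) : Gp M ⧸ Px) := by rw [h, h1]
    exact smul_left_cancel _ h2
  have fixy : ∀ j : S, j ≠ y → ∀ w : Ω, Fq (gen M j • w) ↔ Fq w := by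
    intro j hj w
    have hmem : gen M j ∈ Py := Subgroup.subset_closure ⟨j, hj, rfl⟩
    have h1 : gen M j • ((1 : Gp M) : Gp M ⧸ Py) = ((1 : Gp M) : Gp M ⧸ Py) := by
      show ((gen M j * 1 : Gp M) : Gp M ⧸ Py) = ((1 : Gp M) : Gp M ⧸ Py)
      rw [mul_one, QuotientGroup.eq]
      simpa using hmem
    show (gen M j • w.2 = _ ∧ Dis Px Py (gen M j • w)) ↔ (w.2 = _ ∧ Dis Px Py w)
    rw [dis_smul]
    refine and_congr_left (fun _ => ⟨fun h => ?_, fun h => by rw [h, h1]⟩)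
    have h2 : gen M j • w.2 = gen M j • ((1 : Gp M) : Gp M ⧸ Py) := by rw [h, h1]
    exact smul_left_cancel _ h2
  obtain ⟨Φ1, hΦ1n, hΦ1s⟩ := lift1 M {z | z ≠ x} φ p' (fun j hj => pp_act Fp _ _ (fixx j hj))
  obtain ⟨Φ, hΦn, hΦs⟩ := lift1 M1 U2 Φ1 q' (by
    intro a ha
    rcases a with _ | j
    · rw [hΦ1n]
      apply pp_pp
      rintro w ⟨⟨h1, h3⟩, ⟨h2, h4⟩⟩
      exact h3 ⟨1, h2.symm, h1.symm⟩
    · rw [hΦ1s]
      exact pp_act Fq _ _ (fixy j (fun h => ha (by rw [h]))))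
  have hΦι : ∀ a : Gp M, Φ (ι a) = φ a := by
    have h1 : Φ.comp ι = φ := by
      apply ext M
      intro s
      show Φ (ι (gen M s)) = φ (gen M s)
      rw [hι, hΦs, hΦ1s]
    intro a
    rw [← h1]
    rfl
  have hΦp : Φ p = p' := by
    show Φ (ι2 (gen M1 none)) = p'
    rw [hι2, hΦs, hΦ1n]
  have hΦq : Φ q = q' := hΦn
  -- the commutator is not trivial
  have hne : p * (ι z * q * (ι z)⁻¹) * (ι z * q * (ι z)⁻¹ * p)⁻¹ ≠ 1 := by
    intro h
    have h1 : p * (ι z * q * (ι z)⁻¹) = ι z * q * (ι z)⁻¹ * p := mul_inv_eq_one.1 h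
    have h2 := congrArg Φ h1
    simp only [map_mul, map_inv, hΦι, hΦp, hΦq] at h2
    -- evaluate at the point
    set w0 : Ω := (((1 : Gp M) : Gp M ⧸ Px), (z : Gp M ⧸ Py)) with hw0
    have hD : Dis Px Py w0 := by
      rintro ⟨a, ha1, ha2⟩
      have ha1' : a ∈ Px := by
        have h3 : ((1 : Gp M) : Gp M ⧸ Px) = (a : Gp M ⧸ Px) := ha1.symm
        rw [QuotientGroup.eq] at h3
        simpa using h3
      have ha2' : a⁻¹ * z ∈ Py := QuotientGroup.eq.1 ha2
      exact hz a ha1' (a⁻¹ * z) ha2' (by group)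
    have hinv : (φ z)⁻¹ = φ z⁻¹ := (map_inv φ z).symm
    rw [hinv] at h2
    have hact : ∀ (a : Gp M) (w : Ω) (k : Fin 3), φ a (w, k) = (a • w, k) :=
      fun a w k => rfl
    have hD2 : Fq (z⁻¹ • w0) := by
      refine ⟨?_, (dis_smul Px Py z⁻¹ w0).2 hD⟩
      show z⁻¹ • (z : Gp M ⧸ Py) = ((1 : Gp M) : Gp M ⧸ Py)
      show ((z⁻¹ * z : Gp M) : Gp M ⧸ Py) = ((1 : Gp M) : Gp M ⧸ Py)
      rw [inv_mul_cancel]
    have hP : Fp w0 := ⟨rfl, hD⟩
    have hconj : ∀ k : Fin 3, (φ z * q' * φ z⁻¹) (w0, k) = (w0, Equiv.swap 1 2 k) := by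
      intro k
      show φ z (q' (φ z⁻¹ (w0, k))) = _
      rw [hact z⁻¹ w0 k, pp_pos Fq _ _ k hD2, hact, smul_inv_smul]
    have h3 : p' ((φ z * q' * φ z⁻¹) (w0, 0)) = (φ z * q' * φ z⁻¹) (p' (w0, 0)) :=
      congrArg (fun e : Equiv.Perm (Ω × Fin 3) => e (w0, 0)) h2
    rw [hconj, pp_pos Fp _ w0 _ hP, pp_pos Fp _ w0 _ hP, hconj] at h3
    have h4 : (Equiv.swap (0 : Fin 3) 1) ((Equiv.swap (1 : Fin 3) 2) 0) =
        (Equiv.swap (1 : Fin 3) 2) ((Equiv.swap (0 : Fin 3) 1) 0) := congrArg Prod.snd h3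
    revert h4
    decide
  have hRF2 := hRF (Option (Option S)) M2
  obtain ⟨H, hH⟩ := Group.exists_finiteIndexNormalSubgroup_notMem _ hne
  have hfi : (H.toSubgroup.comap ι).FiniteIndex :=
    (FiniteIndexNormalSubgroup.comap ι H).isFiniteIndex'
  refine ⟨H.toSubgroup.comap ι, inferInstance, hfi, ?_⟩
  intro u hu v hv n hn hzz
  apply hH
  have hn' : ι n ∈ H.toSubgroup := hn
  show p * (ι z * q * (ι z)⁻¹) * (ι z * q * (ι z)⁻¹ * p)⁻¹ ∈ H.toSubgroup
  rw [← QuotientGroup.eq_one_iff]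
  have hn2 : ((ι n : Gp M2) : Gp M2 ⧸ H.toSubgroup) = 1 := (QuotientGroup.eq_one_iff _).2 hn'
  have e1 : p * (ι (u * v) * q * (ι (u * v))⁻¹) * (ι (u * v) * q * (ι (u * v))⁻¹ * p)⁻¹ = 1 := by
    have hv' : ι v * q * (ι v)⁻¹ = q := by
      rw [← (hq v hv).eq]
      group
    have e2 : ι (u * v) * q * (ι (u * v))⁻¹ = ι u * q * (ι u)⁻¹ := by
      rw [map_mul, mul_inv_rev]
      calc ι u * ι v * q * ((ι v)⁻¹ * (ι u)⁻¹) = ι u * (ι v * q * (ι v)⁻¹) * (ι u)⁻¹ := by group
        _ = _ := by rw [hv']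
    rw [e2, mul_inv_eq_one]
    have h1 : Commute p (ι u) := hp u hu
    have h2 : Commute p q := hpq.symm
    exact ((h1.mul_right h2).mul_right h1.inv_right).eq
  have e3 : ((p * (ι z * q * (ι z)⁻¹) * (ι z * q * (ι z)⁻¹ * p)⁻¹ : Gp M2) :
      Gp M2 ⧸ H.toSubgroup) = ((p * (ι (u * v) * q * (ι (u * v))⁻¹) *
        (ι (u * v) * q * (ι (u * v))⁻¹ * p)⁻¹ : Gp M2) : Gp M2 ⧸ H.toSubgroup) := by
    rw [hzz, map_mul ι (u * v) n]
    simp only [QuotientGroup.mk_mul, QuotientGroup.mk_inv, hn2, mul_one]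
  rw [e3, e1]
  rfl

end Unf.H63
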